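import Pool.Agent.L5helper86.NB.Low

set_option autoImplicit false

/-! # The Liouville measure of a part of the energy surface from below, `N` bodies (helper86) -/

namespace Pool.Agent.L5helper86.NB

open MeasureTheory Set Metric Pool.Agent.Y516.NW Pool.Agent.L5helper85.NB

variable {n : ℕ}

/-- lower bound for the Liouville measure of the part -/
theorem lv_part_ge (hn : 2 ≤ n) (m : Fin (n + 1) → ℝ) (hm : ∀ i, 0 < m i) (e : ℝ) (he : 0 ≤ e) :
    ∃ c R₀ : ℝ, 0 < c ∧ 0 < R₀ ∧ ∀ E κ R : ℝ, E < 0 → |E| ≤ κ → R₀ / |E| ≤ R →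
    ENNReal.ofReal (c * κ ^ (e - 3) * R ^ (3 * (n - 1))) ≤ lv m E e (PartS m E R κ) := by
  obtain ⟨a, ha⟩ : ∃ a : Fin (n + 1), a = ⟨0, by omega⟩ := ⟨_, rfl⟩
  obtain ⟨b, hb⟩ : ∃ b : Fin (n + 1), b = ⟨1, by omega⟩ := ⟨_, rfl⟩
  have hab : a ≠ b := by rw [ha, hb]; intro h; simp at h
  have hk2 : ∀ k : Fin (n + 1), k ≠ a → k ≠ b → 2 ≤ k.val := by
    intro k h1 h2
    by_contra hcon
    push Not at hcon
    have h3 : k.val = 0 ∨ k.val = 1 := by omega
    rcases h3 with h3 | h3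
    · exact h1 (Fin.ext (by rw [ha, h3]))
    · exact h2 (Fin.ext (by rw [hb, h3]))
  have hma := hm a
  have hmb := hm b
  have hMs : 0 < ∑ i, m i := Finset.sum_pos (fun i _ => hm i) ⟨0, Finset.mem_univ _⟩
  obtain ⟨e1, he1⟩ := exists_norm_eq E3 (show (0 : ℝ) ≤ 1 by norm_num)
  obtain ⟨M, hM⟩ : ∃ M, M = ∑ i, m i := ⟨_, rfl⟩
  rw [← hM] at hMs
  obtain ⟨lam, hlam⟩ : ∃ lam, lam = (m a + m b) / (2 * M * (n + 1)) := ⟨_, rfl⟩
  have hlam0 : 0 < lam := by rw [hlam]; positivity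
  have hlam2 : lam * (2 * M * (n + 1)) ≤ m a + m b := by
    rw [hlam, div_mul_cancel₀ _ (by positivity)]
  obtain ⟨w, hw⟩ : ∃ w, w = m a * m b := ⟨_, rfl⟩
  have hw0 : 0 < w := by rw [hw]; positivity
  have h00 : (volume : Measure (E3 × (Rest2 n a b → E3))).IsAddHaarMeasure :=
    Measure.prod.instIsAddHaarMeasure _ _
  obtain ⟨k, hk0, hkt, hk⟩ := transfer (SN m a b) (SN_inj m hm a b hab) (SN_dim a b hab)
  have hB0 : volume (ball (0 : Rest2 n a b → E3) 1) ≠ 0 := (measure_ball_pos volume _ one_pos).ne'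
  have hBt : volume (ball (0 : Rest2 n a b → E3) 1) ≠ ⊤ := measure_ball_lt_top.ne
  have hA0 : volume (ball (0 : E3) 1) ≠ 0 := (measure_ball_pos volume _ one_pos).ne'
  have hAt : volume (ball (0 : E3) 1) ≠ ⊤ := measure_ball_lt_top.ne
  have hV : 0 < (V0 m).toReal := ENNReal.toReal_pos (V0_pos m hm).ne' (V0_lt m hm).ne
  obtain ⟨S, hS⟩ : ∃ S, S = (volume (ball (0 : E3) 1)).toReal := ⟨_, rfl⟩
  have hS0 : 0 < S := by rw [hS]; exact ENNReal.toReal_pos hA0 hAt
  obtain ⟨B, hB⟩ : ∃ B, B = (volume (ball (0 : Rest2 n a b → E3) 1)).toReal := ⟨_, rfl⟩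
  have hBp : 0 < B := by rw [hB]; exact ENNReal.toReal_pos hB0 hBt
  have hkp : 0 < k.toReal := ENNReal.toReal_pos hk0 hkt
  refine ⟨(1 / 4) ^ e * (V0 m).toReal * (k.toReal * ((w / 15) ^ 3 * S *
    ((lam / 4) ^ (3 * (n - 1)) * B))),
    2 * w / lam + 4 * M ^ 2 / lam, by positivity, by positivity, ?_⟩
  intro E κ R hE hEκ hR
  have hEp : 0 < |E| := abs_pos.2 hE.ne
  have hEe : |E| = -E := abs_of_neg hE
  have hκ : 0 < κ := lt_of_lt_of_le hEp hEκ
  obtain ⟨r₁, hr₁⟩ : ∃ r, r = w / (|E| + κ / 2) := ⟨_, rfl⟩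
  obtain ⟨r₂, hr₂⟩ : ∃ r, r = w / (|E| + κ / 4) := ⟨_, rfl⟩
  have hr₁0 : 0 < r₁ := by rw [hr₁]; positivity
  have hr₂0 : 0 < r₂ := by rw [hr₂]; positivity
  have hr12 : 2 * (w / (15 * κ)) ≤ r₂ - r₁ := by
    rw [hr₁, hr₂, div_sub_div _ _ (by positivity) (by positivity), ← mul_div_assoc,
      div_le_div_iff₀ (by positivity) (by positivity)]
    have h1 : (|E| + κ / 4) * (|E| + κ / 2) ≤ (5 / 4 * κ) * (3 / 2 * κ) :=
      mul_le_mul (by linarith) (by linarith) (by positivity) (by positivity)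
    have h2 : w * ((|E| + κ / 4) * (|E| + κ / 2)) ≤ w * ((5 / 4 * κ) * (3 / 2 * κ)) :=
      mul_le_mul_of_nonneg_left h1 hw0.le
    nlinarith
  have hr2E : r₂ ≤ w / |E| := by
    rw [hr₂]
    exact div_le_div_of_nonneg_left hw0.le hEp (by linarith)
  have hR0 : 0 < R := lt_of_lt_of_le (by positivity) hR
  have hRr : 2 * r₂ ≤ lam * R := by
    have h1 : 2 * w / lam / |E| ≤ R := by
      refine le_trans ?_ hR
      gcongr
      have : 0 ≤ 4 * M ^ 2 / lam := by positivity
      linarith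
    rw [div_div, div_le_iff₀ (by positivity)] at h1
    have h2 : r₂ * |E| ≤ w := (le_div_iff₀ hEp).1 hr2E
    by_contra hcon
    push Not at hcon
    nlinarith
  have hRκ : M ^ 2 / (lam * R / 2) ≤ κ / 2 := by
    have h1 : 4 * M ^ 2 / lam / |E| ≤ R := by
      refine le_trans ?_ hR
      gcongr
      have : 0 ≤ 2 * w / lam := by positivity
      linarith
    rw [div_div, div_le_iff₀ (by positivity)] at h1
    rw [div_le_iff₀ (by positivity)]
    have h3 : R * (lam * |E|) ≤ R * (lam * κ) := by gcongr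
    linarith
  -- the region
  obtain ⟨ctr, hctr⟩ : ∃ ctr : Rest2 n a b → E3,
    ctr = fun k => (R * (lam * (k.1.val : ℝ))) • e1 := ⟨_, rfl⟩
  obtain ⟨y0, hy0⟩ : ∃ y0 : E3, y0 = ((r₁ + r₂) / 2) • e1 := ⟨_, rfl⟩
  have hy0n : ‖y0‖ = (r₁ + r₂) / 2 := by
    rw [hy0, norm_smul, he1, mul_one, Real.norm_of_nonneg (by positivity)]
  obtain ⟨D1, hD1⟩ : ∃ D : Set E3, D = closedBall y0 (w / (15 * κ)) := ⟨_, rfl⟩
  obtain ⟨D2, hD2⟩ : ∃ D, D = closedBall ctr (lam / 4 * R) := ⟨_, rfl⟩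
  have hD1m : MeasurableSet D1 := by rw [hD1]; exact measurableSet_closedBall
  have hD2m : MeasurableSet D2 := by rw [hD2]; exact measurableSet_closedBall
  have hpt : ∀ x : Fin n → E3, ENNReal.ofReal ((κ / 4) ^ e * (V0 m).toReal) *
      (D1.indicator 1 (SN m a b x).1 * D2.indicator 1 (SN m a b x).2) ≤
      dens m E e (PartS m E R κ) x := by
    intro x
    by_cases h1 : (SN m a b x).1 ∈ D1
    swap
    · rw [indicator_of_notMem h1, zero_mul, mul_zero]; exact zero_le
    by_cases h2 : (SN m a b x).2 ∈ D2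
    swap
    · rw [indicator_of_notMem h2, mul_zero, mul_zero]; exact zero_le
    rw [indicator_of_mem h1, indicator_of_mem h2, Pi.one_apply, Pi.one_apply, mul_one, mul_one]
    rw [SN_apply, hD1, mem_closedBall, dist_eq_norm] at h1
    rw [SN_apply, hD2, mem_closedBall, dist_eq_norm, pi_norm_le_iff_of_nonneg (by positivity)] at h2
    dsimp only at h1 h2
    obtain ⟨q, hq⟩ : ∃ q, q = cf m x := ⟨_, rfl⟩
    have hcen := cf_cen m hm x
    rw [← hq] at hcen h1 h2
    have h1a : r₁ ≤ ‖q a - q b‖ := by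
      have g1 := norm_sub_norm_le y0 (q a - q b)
      rw [norm_sub_rev y0 (q a - q b), hy0n] at g1
      linarith
    have h1b : ‖q a - q b‖ ≤ r₂ := by
      have g1 := norm_sub_norm_le (q a - q b) y0
      rw [hy0n] at g1
      linarith
    have hqk : ∀ k, k ≠ a → k ≠ b → ‖q k - (R * (lam * (k.val : ℝ))) • e1‖ ≤ lam / 4 * R := by
      intro k g1 g2
      have := h2 ⟨k, g1, g2⟩
      rw [hctr] at this
      exact this
    obtain ⟨hball, hsep⟩ := geom m hm q a b hab hcen e1 he1 lam R r₂ hlam0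
      (by rw [← hM]; exact hlam2) hr₂0.le hRr h1b hk2 hqk
    have hrp : 0 < ‖q a - q b‖ := lt_of_lt_of_le hr₁0 h1a
    have hfree : ∀ i j, i ≠ j → q i ≠ q j := by
      intro i j hij heq
      by_cases g1 : i = a ∧ j = b
      · rw [← g1.1, ← g1.2, heq, sub_self, norm_zero] at hrp
        exact lt_irrefl _ hrp
      by_cases g2 : i = b ∧ j = a
      · rw [← g2.1, ← g2.2, heq, sub_self, norm_zero] at hrp
        exact lt_irrefl _ hrp
      have := hsep i j ⟨hij, g1, g2⟩
      rw [heq, sub_self, norm_zero] at this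
      have h3 : 0 < lam * R / 2 := by positivity
      linarith
    have hlow : |E| + κ / 4 ≤ w / ‖q a - q b‖ := by
      rw [le_div_iff₀ hrp]
      rw [hr₂, le_div_iff₀ (by positivity)] at h1b
      linarith
    have hupp : w / ‖q a - q b‖ ≤ |E| + κ / 2 := by
      rw [div_le_iff₀ hrp]
      rw [hr₁, div_le_iff₀ (by positivity)] at h1a
      linarith
    have hp1 := le_pot m hm q a b hab
    have hp2 := pot_le2 m hm q a b (lam * R / 2) (by positivity) hsep
    rw [← hw] at hp1 hp2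
    rw [← hM] at hp2
    have hKlow : κ / 4 ≤ pot m q + E := by linarith
    have hKup : pot m q + E ≤ κ := by linarith
    have hK : 0 < pot m q + E := by linarith
    rw [dens_full (by omega) m hm E e (PartS m E R κ) x (by rw [← hq]; exact hfree)
      (by rw [← hq]; exact hK) (fun p hp => ⟨hp, by rw [← hq]; exact hball, ?_⟩), ← hq,
      ENNReal.ofReal_mul (by positivity), ENNReal.ofReal_toReal (V0_lt m hm).ne]
    · gcongr
    · have h3 : kin m p - pot m (cf m x) = E := hp.2.2.2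
      rw [← hq] at h3
      show kin m p ≤ κ
      linarith
  have hlow := lintegral_mono (μ := (volume : Measure (Fin n → E3))) hpt
  rw [lintegral_const_mul' _ _ ENNReal.ofReal_ne_top] at hlow
  have hkk := hk (fun z => D1.indicator 1 z.1 * D2.indicator 1 z.2)
  rw [hkk] at hlow
  have hprod : ∫⁻ z : E3 × (Rest2 n a b → E3), D1.indicator 1 z.1 * D2.indicator 1 z.2 =
      volume D1 * volume D2 := by
    have e1 := lintegral_prod_mul (μ := (volume : Measure E3))
      (ν := (volume : Measure (Rest2 n a b → E3))) (f := D1.indicator 1) (g := D2.indicator 1)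
      (measurable_one.indicator hD1m).aemeasurable (measurable_one.indicator hD2m).aemeasurable
    rw [lintegral_indicator_one hD1m, lintegral_indicator_one hD2m] at e1
    exact e1
  rw [hprod] at hlow
  have hD2v : volume D2 = ENNReal.ofReal ((lam / 4 * R) ^ (3 * (n - 1)) * B) := by
    rw [hD2, Measure.addHaar_closedBall _ _ (by positivity : (0:ℝ) ≤ lam / 4 * R),
      ENNReal.ofReal_mul (by positivity), hB, ENNReal.ofReal_toReal hBt]
    congr 3
    have h1 := card_rest2 a b hab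
    rw [Module.finrank_pi_fintype]
    simp only [finrank_E3, Finset.sum_const, Finset.card_univ, smul_eq_mul]
    omega
  have hD1v : volume D1 = ENNReal.ofReal ((w / (15 * κ)) ^ 3 * S) := by
    rw [hD1, Measure.addHaar_closedBall _ _ (by positivity : (0:ℝ) ≤ w / (15 * κ)), finrank_E3,
      ENNReal.ofReal_mul (by positivity), hS, ENNReal.ofReal_toReal hAt]
  rw [hD1v, hD2v, ← ENNReal.ofReal_toReal hkt, ← ENNReal.ofReal_mul (by positivity),
    ← ENNReal.ofReal_mul (by positivity), ← ENNReal.ofReal_mul (by positivity)] at hlow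
  refine le_trans (ENNReal.ofReal_le_ofReal (le_of_eq ?_)) hlow
  have hκe : κ ^ (e - 3) = κ ^ e / κ ^ 3 := by
    rw [Real.rpow_sub hκ, ← Real.rpow_natCast κ 3]
    norm_num
  have hκ4 : (κ / 4) ^ e = (1 / 4) ^ e * κ ^ e := by
    rw [← Real.mul_rpow (by norm_num) hκ.le]
    congr 1
    ring
  rw [hκe, hκ4, mul_pow, div_pow w (15 * κ), mul_pow 15 κ, div_pow w 15]
  field_simp

end Pool.Agent.L5helper86.NB
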