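import Pool.Agent.L5helper85.NB.Three

set_option autoImplicit false

/-! # Integration over the configurations of `N` bodies with a close pair (helper86) -/

namespace Pool.Agent.L5helper86.NB

open MeasureTheory Set Metric Pool.Agent.Y516.NW Pool.Agent.L5helper85.NB

variable {n : ℕ}

/-- the bodies different from three given ones -/
abbrev Rest (n : ℕ) (a b c : Fin (n + 1)) : Type :=
  {k : Fin (n + 1) // k ≠ a ∧ k ≠ b ∧ k ≠ c}

theorem card_rest (a b c : Fin (n + 1)) (hab : a ≠ b) (hac : a ≠ c) (hbc : b ≠ c) :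
    Fintype.card (Rest n a b c) + 3 = n + 1 := by
  have h1 : Fintype.card (Rest n a b c) =
      (Finset.univ.filter fun k : Fin (n + 1) => k ≠ a ∧ k ≠ b ∧ k ≠ c).card :=
    Fintype.card_subtype _
  have h2 : (Finset.univ.filter fun k : Fin (n + 1) => k ≠ a ∧ k ≠ b ∧ k ≠ c) =
      ({a, b, c} : Finset (Fin (n + 1)))ᶜ := by
    ext k
    simp
  have h3 : ({a, b, c} : Finset (Fin (n + 1))).card = 3 := by
    rw [Finset.card_insert_of_notMem (by simp [hab, hac]), Finset.card_pair hbc]
  have h4 := Finset.card_compl_add_card ({a, b, c} : Finset (Fin (n + 1)))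
  rw [h3, Fintype.card_fin] at h4
  rw [h1, h2, h4]

/-- coordinates `(q_a - q_b, q_i - q_j, (q_k)_k)`, `k` different from `a, b, i` -/
noncomputable def TN (m : Fin (n + 1) → ℝ) (a b i j : Fin (n + 1)) :
    (Fin n → E3) →ₗ[ℝ] E3 × E3 × (Rest n a b i → E3) :=
  ((prj a - prj b).prod ((prj i - prj j).prod
    (LinearMap.pi fun k : Rest n a b i => prj k.1))).comp (cfL m)

theorem TN_apply (m : Fin (n + 1) → ℝ) (a b i j : Fin (n + 1)) (x : Fin n → E3) :
    TN m a b i j x = (cf m x a - cf m x b, cf m x i - cf m x j, fun k => cf m x k.1) := rfl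

theorem sum_on {V : Type*} [AddCommMonoid V] (f : Fin (n + 1) → V) (s : Finset (Fin (n + 1)))
    (h : ∀ k, k ∉ s → f k = 0) : ∑ k, f k = ∑ k ∈ s, f k :=
  (Finset.sum_subset (Finset.subset_univ s) fun k _ hk => h k hk).symm

theorem TN_inj (m : Fin (n + 1) → ℝ) (hm : ∀ i, 0 < m i) (a b i j : Fin (n + 1)) (hab : a ≠ b)
    (hia : i ≠ a) (hib : i ≠ b) (hij : i ≠ j) : Function.Injective (TN m a b i j) := by
  rw [← LinearMap.ker_eq_bot, LinearMap.ker_eq_bot']
  intro x hx
  rw [TN_apply, Prod.mk_eq_zero, Prod.mk_eq_zero] at hx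
  obtain ⟨h1, h2, h3⟩ := hx
  have hcen := cf_cen m hm x
  refine cf_inj m x ?_
  obtain ⟨q, hq⟩ : ∃ q, q = cf m x := ⟨_, rfl⟩
  rw [← hq] at h1 h2 hcen ⊢
  have h3' : ∀ k, k ∉ ({a, b, i} : Finset (Fin (n + 1))) → q k = 0 := by
    intro k hk
    simp only [Finset.mem_insert, Finset.mem_singleton, not_or] at hk
    have := congrFun h3 ⟨k, hk⟩
    rw [hq]
    exact this
  rw [sum_on _ {a, b, i} (fun k hk => by rw [h3' k hk, smul_zero]),
    Finset.sum_insert (by simp [hab, Ne.symm hia]), Finset.sum_pair (Ne.symm hib)] at hcen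
  have ha := hm a
  have hb := hm b
  have hi := hm i
  have e1 : q a = q b := sub_eq_zero.1 h1
  have e2 : q i = q j := sub_eq_zero.1 h2
  have key : q a = 0 ∧ q i = 0 := by
    by_cases hja : j = a
    · rw [hja] at e2
      rw [e2, ← e1, ← add_smul, ← add_smul, smul_eq_zero] at hcen
      rcases hcen with h | h
      · linarith
      · exact ⟨h, by rw [e2, h]⟩
    by_cases hjb : j = b
    · rw [hjb] at e2
      rw [e2, ← e1, ← add_smul, ← add_smul, smul_eq_zero] at hcen
      rcases hcen with h | h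
      · linarith
      · exact ⟨h, by rw [e2, ← e1, h]⟩
    have h4 : q j = 0 := h3' j (by simp [hja, hjb, Ne.symm hij])
    rw [e2, h4, smul_zero, add_zero, ← e1, ← add_smul, smul_eq_zero] at hcen
    rcases hcen with h | h
    · linarith
    · exact ⟨h, by rw [e2, h4]⟩
  funext k
  by_cases hk : k ∈ ({a, b, i} : Finset (Fin (n + 1)))
  · simp only [Finset.mem_insert, Finset.mem_singleton] at hk
    rcases hk with rfl | rfl | rfl
    · exact key.1
    · rw [← e1]; exact key.1
    · exact key.2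
  · exact h3' k hk

theorem TN_dim (a b i : Fin (n + 1)) (hab : a ≠ b)
    (hia : i ≠ a) (hib : i ≠ b) :
    Module.finrank ℝ (Fin n → E3) = Module.finrank ℝ (E3 × E3 × (Rest n a b i → E3)) := by
  have h1 := card_rest a b i hab (Ne.symm hia) (Ne.symm hib)
  rw [Module.finrank_prod, Module.finrank_prod, Module.finrank_pi_fintype,
    Module.finrank_pi_fintype]
  simp only [finrank_E3, Finset.sum_const, Finset.card_univ, Fintype.card_fin, smul_eq_mul]
  omega

theorem TN_int (m : Fin (n + 1) → ℝ) (hm : ∀ i, 0 < m i) (a b i j : Fin (n + 1))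
    (hab : a ≠ b) (hia : i ≠ a) (hib : i ≠ b) (hij : i ≠ j) :
    ∃ κ : ℝ, 0 < κ ∧ ∀ (W : E3 → ENNReal), Measurable W → ∀ (t v R : ℝ), t < 3 → 0 < v → 0 < R →
    ∫⁻ x, W (TN m a b i j x).1 * (pw t v (TN m a b i j x).2.1 *
      (closedBall (0 : Rest n a b i → E3) R).indicator 1 (TN m a b i j x).2.2) =
      (∫⁻ y, W y) * ENNReal.ofReal (κ * (cs t * v ^ (3 - t)) * R ^ (3 * (n - 2))) := by
  have h0 : (volume : Measure (E3 × (Rest n a b i → E3))).IsAddHaarMeasure :=
    Measure.prod.instIsAddHaarMeasure _ _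
  have h00 : (volume : Measure (E3 × E3 × (Rest n a b i → E3))).IsAddHaarMeasure :=
    Measure.prod.instIsAddHaarMeasure _ _
  obtain ⟨k, hk0, hkt, hk⟩ := transfer (TN m a b i j) (TN_inj m hm a b i j hab hia hib hij)
    (TN_dim a b i hab hia hib)
  have hB0 : volume (ball (0 : Rest n a b i → E3) 1) ≠ 0 := (measure_ball_pos volume _ one_pos).ne'
  have hBt : volume (ball (0 : Rest n a b i → E3) 1) ≠ ⊤ := measure_ball_lt_top.ne
  refine ⟨k.toReal * (volume (ball (0 : Rest n a b i → E3) 1)).toReal,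
    mul_pos (ENNReal.toReal_pos hk0 hkt) (ENNReal.toReal_pos hB0 hBt), ?_⟩
  intro W hW t v R ht hv hR
  have h1 := hk (fun z => W z.1 * (pw t v z.2.1 *
    (closedBall (0 : Rest n a b i → E3) R).indicator 1 z.2.2))
  rw [h1]
  have hm3 : Measurable ((closedBall (0 : Rest n a b i → E3) R).indicator
      (1 : (Rest n a b i → E3) → ENNReal)) := measurable_one.indicator measurableSet_closedBall
  have h2 : ∫⁻ z : E3 × E3 × (Rest n a b i → E3), W z.1 * (pw t v z.2.1 *
      (closedBall (0 : Rest n a b i → E3) R).indicator 1 z.2.2) =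
      (∫⁻ y, W y) * ((∫⁻ y, pw t v y) *
        ∫⁻ y, (closedBall (0 : Rest n a b i → E3) R).indicator 1 y) := by
    have e1 : ∫⁻ z : E3 × (Rest n a b i → E3), pw t v z.1 *
        (closedBall (0 : Rest n a b i → E3) R).indicator 1 z.2 = (∫⁻ y, pw t v y) *
        ∫⁻ y, (closedBall (0 : Rest n a b i → E3) R).indicator 1 y := by
      rw [Measure.volume_eq_prod]
      exact lintegral_prod_mul (pw_meas t v).aemeasurable hm3.aemeasurable
    rw [← e1, Measure.volume_eq_prod]
    exact lintegral_prod_mul (f := W) (g := fun z : E3 × (Rest n a b i → E3) => pw t v z.1 *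
        (closedBall (0 : Rest n a b i → E3) R).indicator 1 z.2) hW.aemeasurable
        (((pw_meas t v).comp measurable_fst).mul (hm3.comp measurable_snd)).aemeasurable
  have h3 : ∫⁻ y, (closedBall (0 : Rest n a b i → E3) R).indicator 1 y =
      ENNReal.ofReal (R ^ (3 * (n - 2))) * volume (ball (0 : Rest n a b i → E3) 1) := by
    rw [lintegral_indicator_one measurableSet_closedBall, Measure.addHaar_closedBall _ _ hR.le]
    congr 3
    have h1 := card_rest a b i hab (Ne.symm hia) (Ne.symm hib)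
    rw [Module.finrank_pi_fintype]
    simp only [finrank_E3, Finset.sum_const, Finset.card_univ, smul_eq_mul]
    omega
  have c2 := cs_pos ht
  rw [h2, h3, lint_pw ht hv]
  have e4 : volume (ball (0 : Rest n a b i → E3) 1) =
      ENNReal.ofReal (volume (ball (0 : Rest n a b i → E3) 1)).toReal :=
    (ENNReal.ofReal_toReal hBt).symm
  rw [e4, ENNReal.toReal_ofReal ENNReal.toReal_nonneg]
  have hb : 0 ≤ (volume (ball (0 : Rest n a b i → E3) 1)).toReal := ENNReal.toReal_nonneg
  nth_rewrite 1 [← ENNReal.ofReal_toReal hkt]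
  rw [mul_left_comm, ← ENNReal.ofReal_mul (by positivity), ← ENNReal.ofReal_mul (by positivity),
    ← ENNReal.ofReal_mul ENNReal.toReal_nonneg]
  congr 2
  ring

/-- quadruples `(a, b, i, j)`: a pair and another pair, `i` being none of `a`, `b` -/
abbrev Idx (n : ℕ) : Type :=
  {z : (Fin (n + 1) × Fin (n + 1)) × (Fin (n + 1) × Fin (n + 1)) //
    z.1.1 ≠ z.1.2 ∧ z.2.1 ≠ z.1.1 ∧ z.2.1 ≠ z.1.2 ∧ z.2.1 ≠ z.2.2}

/-- the weight of a quadruple -/
noncomputable def wt (m : Fin (n + 1) → ℝ) (W : E3 → ENNReal) (t v R : ℝ) (z : Idx n)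
    (x : Fin n → E3) : ENNReal :=
  W (TN m z.1.1.1 z.1.1.2 z.1.2.1 z.1.2.2 x).1 *
    (pw t v (TN m z.1.1.1 z.1.1.2 z.1.2.1 z.1.2.2 x).2.1 *
      (closedBall (0 : Rest n z.1.1.1 z.1.1.2 z.1.2.1 → E3) R).indicator 1
        (TN m z.1.1.1 z.1.1.2 z.1.2.1 z.1.2.2 x).2.2)

theorem wt_meas (m : Fin (n + 1) → ℝ) (W : E3 → ENNReal) (hW : Measurable W) (t v R : ℝ)
    (z : Idx n) : Measurable (wt m W t v R z) := by
  have hT : Measurable (TN m z.1.1.1 z.1.1.2 z.1.2.1 z.1.2.2) :=
    (LinearMap.continuous_of_finiteDimensional _).measurable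
  unfold wt
  exact (hW.comp (measurable_fst.comp hT)).mul
    (((pw_meas t v).comp (measurable_fst.comp (measurable_snd.comp hT))).mul
      ((measurable_one.indicator measurableSet_closedBall).comp
        (measurable_snd.comp (measurable_snd.comp hT))))

theorem upperN (m : Fin (n + 1) → ℝ) (hm : ∀ i, 0 < m i) (t : ℝ) (ht : t < 3) :
    ∃ κ : ℝ, 0 < κ ∧ ∀ (W : E3 → ENNReal), Measurable W → ∀ (c A v R : ℝ), 0 ≤ c → 0 ≤ A →
    0 < v → 0 < R → ∫⁻ y, W y ≤ ENNReal.ofReal A →
    ∀ g : (Fin n → E3) → ENNReal,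
    (∀ x, g x = 0 ∨ ∃ z : Idx n, g x ≤ ENNReal.ofReal c * wt m W t v R z x) →
    ∫⁻ x, g x ≤ ENNReal.ofReal (κ * c * A * v ^ (3 - t) * R ^ (3 * (n - 2))) := by
  choose κ hκ hint using fun z : Idx n =>
    TN_int m hm z.1.1.1 z.1.1.2 z.1.2.1 z.1.2.2 z.2.1 z.2.2.1 z.2.2.2.1 z.2.2.2.2
  have c2 := cs_pos ht
  have hκs : 0 ≤ ∑ z, κ z := Finset.sum_nonneg fun z _ => (hκ z).le
  refine ⟨((∑ z, κ z) + 1) * cs t, by positivity, ?_⟩
  intro W hW c A v R hc hA hv hR hWA g hg
  calc ∫⁻ x, g x ≤ ∫⁻ x, ∑ z : Idx n, ENNReal.ofReal c * wt m W t v R z x := by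
        refine lintegral_mono fun x => ?_
        rcases hg x with h0 | ⟨z, hz⟩
        · rw [h0]; exact zero_le
        · exact hz.trans (Finset.single_le_sum (f := fun z : Idx n =>
            ENNReal.ofReal c * wt m W t v R z x) (fun _ _ => zero_le) (Finset.mem_univ z))
    _ ≤ ∑ z : Idx n, ENNReal.ofReal (c * (A * (κ z * (cs t * v ^ (3 - t)) *
          R ^ (3 * (n - 2))))) := by
        rw [lintegral_finsetSum _ fun z _ => (wt_meas m W hW t v R z).const_mul _]
        refine Finset.sum_le_sum fun z _ => ?_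
        rw [lintegral_const_mul' _ _ ENNReal.ofReal_ne_top]
        unfold wt
        rw [hint z W hW t v R ht hv hR, ENNReal.ofReal_mul hc, ENNReal.ofReal_mul hA]
        gcongr
    _ = ENNReal.ofReal (∑ z, c * (A * (κ z * (cs t * v ^ (3 - t)) *
          R ^ (3 * (n - 2))))) := by
        rw [ENNReal.ofReal_sum_of_nonneg]
        intro z _
        have := hκ z
        positivity
    _ ≤ _ := by
        refine ENNReal.ofReal_le_ofReal ?_
        rw [← Finset.mul_sum, ← Finset.mul_sum, ← Finset.sum_mul, ← Finset.sum_mul]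
        have h1 : c * (A * ((∑ z, κ z) * (cs t * v ^ (3 - t)) * R ^ (3 * (n - 2))))
          = (∑ z, κ z) * (c * A * cs t * v ^ (3 - t) * R ^ (3 * (n - 2))) := by ring
        have h2 : ((∑ z, κ z) + 1) * cs t * c * A * v ^ (3 - t) * R ^ (3 * (n - 2))
          = ((∑ z, κ z) + 1) * (c * A * cs t * v ^ (3 - t) * R ^ (3 * (n - 2))) := by
          ring
        rw [h1, h2]
        have h3 : 0 ≤ c * A * cs t * v ^ (3 - t) * R ^ (3 * (n - 2)) := by
          positivity
        nlinarith

/-- the weight `‖y‖ ^ (-e)` outside of a ball -/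
noncomputable def out (e r : ℝ) (y : E3) : ENNReal :=
  ({y : E3 | r ≤ ‖y‖}).indicator (fun y => ENNReal.ofReal (‖y‖ ^ (-e))) y

theorem out_meas (e r : ℝ) : Measurable (out e r) := by
  unfold out
  exact (ENNReal.measurable_ofReal.comp (measurable_norm.pow_const _)).indicator
    (isClosed_le continuous_const continuous_norm).measurableSet

/-- the constant -/
noncomputable def co (e : ℝ) : ℝ := 3 * (volume.real (ball (0 : E3) 1)) / (e - 3)

theorem lint_out {e r : ℝ} (he : 3 < e) (hr : 0 < r) :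
    ∫⁻ y : E3, out e r y = ENNReal.ofReal (co e * r ^ (3 - e)) := by
  set f : ℝ → ℝ := (Ici r).indicator (fun y => y ^ (-e)) with hf
  have hint1 : IntegrableOn (fun y : ℝ => y ^ (2 - e)) (Ioi r) :=
    integrableOn_Ioi_rpow_of_lt (by linarith) hr
  have hfy : ∀ y ∈ Ioi (0 : ℝ), y ^ (Module.finrank ℝ E3 - 1) • f y =
      (Ici r).indicator (fun y : ℝ => y ^ (2 - e)) y := by
    intro y hy
    have hy' : (0 : ℝ) < y := hy
    rw [finrank_E3, hf]
    by_cases hya : r ≤ y
    · rw [indicator_of_mem (mem_Ici.2 hya), indicator_of_mem (mem_Ici.2 hya), smul_eq_mul]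
      have : (2 : ℝ) - e = ((2 : ℕ) : ℝ) + (-e) := by push_cast; ring
      rw [this, Real.rpow_add hy', Real.rpow_natCast]
    · rw [indicator_of_notMem (fun h => hya (mem_Ici.1 h)),
        indicator_of_notMem (fun h => hya (mem_Ici.1 h)), smul_zero]
  have hI : Ioi (0 : ℝ) ∩ Ici r = Ici r := by
    ext y; constructor
    · exact fun h => h.2
    · exact fun h => ⟨lt_of_lt_of_le hr h, h⟩
  have hint : Integrable (fun x : E3 => f ‖x‖) := by
    rw [integrable_fun_norm_addHaar, integrableOn_congr_fun hfy measurableSet_Ioi]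
    have := (integrable_indicator_iff (f := fun y : ℝ => y ^ (2 - e)) (s := Ici r)
      (μ := volume) measurableSet_Ici).2 (by rwa [integrableOn_Ici_iff_integrableOn_Ioi])
    exact this.integrableOn
  have hval : ∫ x : E3, f ‖x‖ = co e * r ^ (3 - e) := by
    rw [integral_fun_norm_addHaar, setIntegral_congr_fun measurableSet_Ioi hfy,
      setIntegral_indicator measurableSet_Ici, hI, integral_Ici_eq_integral_Ioi,
      integral_Ioi_rpow_of_lt (by linarith) hr, finrank_E3]
    have h2 : 2 - e + 1 = 3 - e := by ring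
    rw [h2]
    unfold co
    rw [nsmul_eq_mul, smul_eq_mul]
    push_cast
    have h3 : (3 - e) ≠ 0 := by linarith
    have h4 : (e - 3) ≠ 0 := by linarith
    field_simp
    ring
  have hfnn : ∀ x : E3, 0 ≤ f ‖x‖ := by
    intro x
    rw [hf]
    by_cases hya : r ≤ ‖x‖
    · rw [indicator_of_mem (mem_Ici.2 hya)]
      exact Real.rpow_nonneg (norm_nonneg _) _
    · rw [indicator_of_notMem (fun h => hya (mem_Ici.1 h))]
  have heq : ∀ y : E3, out e r y = ENNReal.ofReal (f ‖y‖) := by
    intro y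
    unfold out
    by_cases hya : r ≤ ‖y‖
    · have h1 : y ∈ {y : E3 | r ≤ ‖y‖} := hya
      rw [indicator_of_mem h1, hf, indicator_of_mem (mem_Ici.2 hya)]
    · have h1 : y ∉ {y : E3 | r ≤ ‖y‖} := hya
      rw [indicator_of_notMem h1, hf, indicator_of_notMem (fun h => hya (mem_Ici.1 h)),
        ENNReal.ofReal_zero]
  rw [lintegral_congr heq, ← ofReal_integral_eq_lintegral_ofReal hint
    (Filter.Eventually.of_forall hfnn), hval]

end Pool.Agent.L5helper86.NB
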