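import Pool.Agent.L5helper86.NB.Up

set_option autoImplicit false

/-! # Lower bound for the Liouville measure, `N` bodies (helper86) -/

namespace Pool.Agent.L5helper86.NB

open MeasureTheory Set Metric Pool.Agent.Y516.NW Pool.Agent.L5helper85.NB

variable {n : ℕ}

/-- the bodies different from two given ones -/
abbrev Rest2 (n : ℕ) (a b : Fin (n + 1)) : Type := {k : Fin (n + 1) // k ≠ a ∧ k ≠ b}

theorem card_rest2 (a b : Fin (n + 1)) (hab : a ≠ b) :
    Fintype.card (Rest2 n a b) + 2 = n + 1 := by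
  have h1 : Fintype.card (Rest2 n a b) =
      (Finset.univ.filter fun k : Fin (n + 1) => k ≠ a ∧ k ≠ b).card :=
    Fintype.card_subtype _
  have h2 : (Finset.univ.filter fun k : Fin (n + 1) => k ≠ a ∧ k ≠ b) =
      ({a, b} : Finset (Fin (n + 1)))ᶜ := by
    ext k
    simp
  have h4 := Finset.card_compl_add_card ({a, b} : Finset (Fin (n + 1)))
  rw [Finset.card_pair hab, Fintype.card_fin] at h4
  rw [h1, h2, h4]

/-- coordinates `(q_a - q_b, (q_k)_k)`, `k` different from `a, b` -/
noncomputable def SN (m : Fin (n + 1) → ℝ) (a b : Fin (n + 1)) :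
    (Fin n → E3) →ₗ[ℝ] E3 × (Rest2 n a b → E3) :=
  ((prj a - prj b).prod (LinearMap.pi fun k : Rest2 n a b => prj k.1)).comp (cfL m)

theorem SN_apply (m : Fin (n + 1) → ℝ) (a b : Fin (n + 1)) (x : Fin n → E3) :
    SN m a b x = (cf m x a - cf m x b, fun k => cf m x k.1) := rfl

theorem SN_inj (m : Fin (n + 1) → ℝ) (hm : ∀ i, 0 < m i) (a b : Fin (n + 1)) (hab : a ≠ b) :
    Function.Injective (SN m a b) := by
  rw [← LinearMap.ker_eq_bot, LinearMap.ker_eq_bot']
  intro x hx
  rw [SN_apply, Prod.mk_eq_zero] at hx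
  obtain ⟨h1, h3⟩ := hx
  have hcen := cf_cen m hm x
  refine cf_inj m x ?_
  obtain ⟨q, hq⟩ : ∃ q, q = cf m x := ⟨_, rfl⟩
  rw [← hq] at h1 hcen ⊢
  have h3' : ∀ k, k ∉ ({a, b} : Finset (Fin (n + 1))) → q k = 0 := by
    intro k hk
    simp only [Finset.mem_insert, Finset.mem_singleton, not_or] at hk
    have := congrFun h3 ⟨k, hk⟩
    rw [hq]
    exact this
  rw [sum_on _ {a, b} (fun k hk => by rw [h3' k hk, smul_zero]), Finset.sum_pair hab] at hcen
  have ha := hm a
  have hb := hm b
  have e1 : q a = q b := sub_eq_zero.1 h1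
  rw [← e1, ← add_smul, smul_eq_zero] at hcen
  have h0 : q a = 0 := by
    rcases hcen with h | h
    · linarith
    · exact h
  funext k
  by_cases hk : k ∈ ({a, b} : Finset (Fin (n + 1)))
  · simp only [Finset.mem_insert, Finset.mem_singleton] at hk
    rcases hk with rfl | rfl
    · exact h0
    · rw [← e1]; exact h0
  · exact h3' k hk

theorem SN_dim (a b : Fin (n + 1)) (hab : a ≠ b) :
    Module.finrank ℝ (Fin n → E3) = Module.finrank ℝ (E3 × (Rest2 n a b → E3)) := by
  have h1 := card_rest2 a b hab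
  rw [Module.finrank_prod, Module.finrank_pi_fintype, Module.finrank_pi_fintype]
  simp only [finrank_E3, Finset.sum_const, Finset.card_univ, Fintype.card_fin, smul_eq_mul]
  omega

/-- the potential of a configuration with one close pair -/
theorem pot_le2 (m : Fin (n + 1) → ℝ) (hm : ∀ i, 0 < m i) (q : Cfg (n + 1)) (a b : Fin (n + 1))
    (δ : ℝ) (hδ : 0 < δ) (h : ∀ i j, P2 a b i j → δ ≤ ‖q i - q j‖) :
    pot m q ≤ m a * m b / ‖q a - q b‖ + (∑ i, m i) ^ 2 / δ := by
  obtain ⟨X, hX⟩ : ∃ X, X = m a * m b / ‖q a - q b‖ := ⟨_, rfl⟩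
  have ha := hm a
  have hb := hm b
  have hX0 : 0 ≤ X := by rw [hX]; positivity
  have h1 : pot m q ≤ ∑ i, ∑ j, (m i * m j / δ / 2 + ((if i = a ∧ j = b then X / 2 else 0) +
      (if i = b ∧ j = a then X / 2 else 0))) := by
    unfold pot
    refine Finset.sum_le_sum fun i _ => Finset.sum_le_sum fun j _ => ?_
    have hi := hm i
    have hj := hm j
    have h0 : 0 ≤ m i * m j / δ / 2 := by positivity
    have g1 : (0 : ℝ) ≤ (if i = a ∧ j = b then X / 2 else 0) := by split_ifs <;> positivity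
    have g2 : (0 : ℝ) ≤ (if i = b ∧ j = a then X / 2 else 0) := by split_ifs <;> positivity
    by_cases hij : i = j
    · rw [← hij, sub_self, norm_zero, div_zero, zero_div, hij]
      rw [hij] at h0 g1 g2
      linarith
    by_cases h3 : i = a ∧ j = b
    · have h6 : m i * m j / ‖q i - q j‖ = X := by rw [hX, h3.1, h3.2]
      rw [if_pos h3, h6]
      linarith
    by_cases h4 : i = b ∧ j = a
    · have h6 : m i * m j / ‖q i - q j‖ = X := by
        rw [hX, h4.1, h4.2, mul_comm (m b), norm_sub_rev]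
      rw [if_pos h4, h6]
      linarith
    have h2 := h i j ⟨hij, h3, h4⟩
    have h5 : m i * m j / ‖q i - q j‖ ≤ m i * m j / δ := by gcongr
    linarith
  refine h1.trans ?_
  simp only [Finset.sum_add_distrib, ite_and, Finset.sum_ite_irrel, Finset.sum_ite_eq',
    Finset.mem_univ, if_true, Finset.sum_const_zero]
  rw [← hX]
  have e1 : ∑ i, ∑ j, m i * m j / δ / 2 = (∑ i, m i) ^ 2 / δ / 2 := by
    rw [sq, Finset.sum_mul_sum, Finset.sum_div, Finset.sum_div]
    exact Finset.sum_congr rfl fun i _ => by rw [Finset.sum_div, Finset.sum_div]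
  rw [e1]
  have e2 : 0 ≤ (∑ i, m i) ^ 2 / δ := by positivity
  linarith

/-- the centre of mass equation with the pair separated -/
theorem pair_eq (m : Fin (n + 1) → ℝ) (q : Cfg (n + 1)) (a b : Fin (n + 1)) (hab : a ≠ b)
    (hcen : ∑ i, m i • q i = 0) :
    (m a + m b) • q a = m b • (q a - q b) - ∑ k ∈ ({a, b} : Finset (Fin (n + 1)))ᶜ, m k • q k := by
  have h1 := Finset.sum_add_sum_compl ({a, b} : Finset (Fin (n + 1))) (fun k => m k • q k)
  rw [hcen, Finset.sum_pair hab] at h1
  have h2 : ∑ k ∈ ({a, b} : Finset (Fin (n + 1)))ᶜ, m k • q k = -(m a • q a + m b • q b) :=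
    eq_neg_of_add_eq_zero_right h1
  rw [h2, add_smul, smul_sub]
  abel

/-- geometry: one close pair, the other bodies far apart near given places on a half line -/
theorem geom (m : Fin (n + 1) → ℝ) (hm : ∀ i, 0 < m i) (q : Cfg (n + 1)) (a b : Fin (n + 1))
    (hab : a ≠ b) (hcen : ∑ i, m i • q i = 0) (e1 : E3) (he1 : ‖e1‖ = 1) (lam R r : ℝ)
    (hlam : 0 < lam) (hlam2 : lam * (2 * (∑ i, m i) * (n + 1)) ≤ m a + m b) (hr : 0 ≤ r)
    (hrR : 2 * r ≤ lam * R) (hpair : ‖q a - q b‖ ≤ r) (hk2 : ∀ k, k ≠ a → k ≠ b → 2 ≤ k.val)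
    (hq : ∀ k, k ≠ a → k ≠ b → ‖q k - (R * (lam * (k.val : ℝ))) • e1‖ ≤ lam / 4 * R) :
    (∀ i, ‖q i‖ ≤ R) ∧ ∀ i j, P2 a b i j → lam * R / 2 ≤ ‖q i - q j‖ := by
  have ha := hm a
  have hb := hm b
  have hMa : m a + m b ≤ ∑ i, m i := by
    have := Finset.sum_le_sum_of_subset_of_nonneg (s := {a, b}) (t := Finset.univ) (f := m)
      (Finset.subset_univ _) (fun i _ _ => (hm i).le)
    rwa [Finset.sum_pair hab] at this
  have hM : 0 < ∑ i, m i := by linarith
  have hR0 : 0 ≤ R := by
    by_contra hcon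
    push Not at hcon
    nlinarith
  have hn0 : (0 : ℝ) ≤ n := Nat.cast_nonneg n
  have hlamn : lam * (2 * (n + 1)) ≤ 1 := by
    have h1 : lam * (2 * (∑ i, m i) * (n + 1)) ≤ ∑ i, m i := hlam2.trans hMa
    have h2 : lam * (2 * (∑ i, m i) * (n + 1)) = (lam * (2 * (n + 1))) * ∑ i, m i := by ring
    rw [h2] at h1
    by_contra hcon
    push Not at hcon
    nlinarith
  have hin : ∀ (c : ℝ) (y : E3), |inner ℝ e1 y| ≤ ‖y‖ := fun _ y => by
    have := abs_real_inner_le_norm e1 y
    rwa [he1, one_mul] at this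
  have hnorm : ∀ k, k ≠ a → k ≠ b → ‖q k‖ ≤ lam * (n + 1) * R := by
    intro k h1 h2
    have h3 := hq k h1 h2
    have h4 : ‖(R * (lam * (k.val : ℝ))) • e1‖ = R * (lam * (k.val : ℝ)) := by
      rw [norm_smul, he1, mul_one, Real.norm_of_nonneg (by positivity)]
    have h5 : ‖q k‖ ≤ ‖q k - (R * (lam * (k.val : ℝ))) • e1‖ + ‖(R * (lam * (k.val : ℝ))) • e1‖ := by
      have := norm_add_le (q k - (R * (lam * (k.val : ℝ))) • e1) ((R * (lam * (k.val : ℝ))) • e1)
      rwa [sub_add_cancel] at this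
    have h6 : (k.val : ℝ) ≤ n := by exact_mod_cast Nat.lt_succ_iff.1 k.isLt
    have h7 : R * (lam * (k.val : ℝ)) ≤ R * (lam * n) := by gcongr
    have h8 : 0 ≤ lam * R := by positivity
    nlinarith
  have hinner : ∀ k, k ≠ a → k ≠ b → 7 / 4 * lam * R ≤ inner ℝ e1 (q k) := by
    intro k h1 h2
    have h3 := hq k h1 h2
    have h4 := hin 0 (q k - (R * (lam * (k.val : ℝ))) • e1)
    rw [inner_sub_right, inner_smul_right, real_inner_self_eq_norm_sq, he1, one_pow, mul_one] at h4
    have h5 := (abs_le.1 (h4.trans h3)).1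
    have h6 : (2 : ℝ) ≤ (k.val : ℝ) := by exact_mod_cast hk2 k h1 h2
    have h7 : R * (lam * 2) ≤ R * (lam * (k.val : ℝ)) := by gcongr
    linarith
  -- the sum over the other bodies
  have hGin : 0 ≤ inner ℝ e1 (∑ k ∈ ({a, b} : Finset (Fin (n + 1)))ᶜ, m k • q k) := by
    rw [inner_sum]
    refine Finset.sum_nonneg fun k hk => ?_
    simp only [Finset.mem_compl, Finset.mem_insert, Finset.mem_singleton, not_or] at hk
    rw [inner_smul_right]
    have h1 := hinner k hk.1 hk.2
    have h2 := hm k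
    have h3 : 0 ≤ 7 / 4 * lam * R := by positivity
    exact mul_nonneg h2.le (h3.trans h1)
  have hGn : ‖∑ k ∈ ({a, b} : Finset (Fin (n + 1)))ᶜ, m k • q k‖ ≤
      (∑ i, m i) * (lam * (n + 1) * R) := by
    refine (norm_sum_le _ _).trans ?_
    rw [Finset.sum_mul]
    refine (Finset.sum_le_sum (g := fun k => m k * (lam * (n + 1) * R)) fun k hk => ?_).trans
      (Finset.sum_le_sum_of_subset_of_nonneg (Finset.subset_univ _) (fun k _ _ => ?_))
    · simp only [Finset.mem_compl, Finset.mem_insert, Finset.mem_singleton, not_or] at hk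
      rw [norm_smul, Real.norm_of_nonneg (hm k).le]
      exact mul_le_mul_of_nonneg_left (hnorm k hk.1 hk.2) (hm k).le
    · have := hm k
      positivity
  -- a member of the pair
  have hmem : ∀ c d : Fin (n + 1), 0 < m c → 0 < m d → m c + m d = m a + m b →
      ‖q c - q d‖ ≤ r → (m c + m d) • q c = m d • (q c - q d) -
        ∑ k ∈ ({a, b} : Finset (Fin (n + 1)))ᶜ, m k • q k →
      ‖q c‖ ≤ R ∧ inner ℝ e1 (q c) ≤ r := by
    intro c d hc hd hcd hcr heq
    constructor
    · have h1 : (m c + m d) * ‖q c‖ ≤ m d * r + (∑ i, m i) * (lam * (n + 1) * R) := by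
        calc (m c + m d) * ‖q c‖ = ‖(m c + m d) • q c‖ := by
              rw [norm_smul, Real.norm_of_nonneg (by linarith)]
          _ ≤ ‖m d • (q c - q d)‖ + ‖∑ k ∈ ({a, b} : Finset (Fin (n + 1)))ᶜ, m k • q k‖ := by
              rw [heq]; exact norm_sub_le _ _
          _ ≤ _ := by
              rw [norm_smul, Real.norm_of_nonneg hd.le]
              gcongr
      have h2 : (∑ i, m i) * (lam * (n + 1) * R) ≤ (m a + m b) * (R / 2) := by
        have : (∑ i, m i) * (lam * (n + 1) * R) = lam * (2 * (∑ i, m i) * (n + 1)) * (R / 2) := by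
          ring
        rw [this]
        exact mul_le_mul_of_nonneg_right hlam2 (by positivity)
      have h3 : r ≤ R / 2 := by
        have h4 : lam * R ≤ 1 * R := by
          refine mul_le_mul_of_nonneg_right ?_ hR0
          nlinarith
        linarith
      have h5 : m d * r ≤ (m c + m d) * (R / 2) := by
        have : m d * r ≤ m d * (R / 2) := by gcongr
        nlinarith
      rw [← hcd] at h2
      have h6 : (m c + m d) * ‖q c‖ ≤ (m c + m d) * R := by linarith
      exact le_of_mul_le_mul_left h6 (by linarith)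
    · have h1 : (m c + m d) * inner ℝ e1 (q c) ≤ m d * r := by
        have h2 : inner ℝ e1 ((m c + m d) • q c) = (m c + m d) * inner ℝ e1 (q c) := by
          rw [inner_smul_right]
        rw [← h2, heq, inner_sub_right, inner_smul_right]
        have h3 := (abs_le.1 (hin 0 (q c - q d))).2
        have h4 : m d * inner ℝ e1 (q c - q d) ≤ m d * r := by
          refine mul_le_mul_of_nonneg_left (h3.trans hcr) hd.le
        linarith
      have h5 : (m c + m d) * inner ℝ e1 (q c) ≤ (m c + m d) * r := by nlinarith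
      exact le_of_mul_le_mul_left h5 (by linarith)
  have hA := hmem a b ha hb rfl hpair (pair_eq m q a b hab hcen)
  have hB := hmem b a hb ha (add_comm _ _) (by rw [norm_sub_rev]; exact hpair) (by
    have := pair_eq m q b a (Ne.symm hab) hcen
    rwa [Finset.pair_comm] at this)
  refine ⟨fun i => ?_, ?_⟩
  · by_cases hia : i = a
    · rw [hia]; exact hA.1
    by_cases hib : i = b
    · rw [hib]; exact hB.1
    refine (hnorm i hia hib).trans ?_
    have : lam * (n + 1) * R ≤ 1 * R := by
      refine mul_le_mul_of_nonneg_right ?_ hR0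
      nlinarith
    linarith
  · have hfar : ∀ k c, k ≠ a → k ≠ b → (c = a ∨ c = b) → lam * R / 2 ≤ ‖q k - q c‖ := by
      intro k c h1 h2 hc
      have h3 : inner ℝ e1 (q c) ≤ r := by
        rcases hc with rfl | rfl
        · exact hA.2
        · exact hB.2
      have h4 := hinner k h1 h2
      have h5 := (abs_le.1 (hin 0 (q k - q c))).2
      rw [inner_sub_right] at h5
      have h6 : 0 ≤ lam * R := by positivity
      linarith
    intro i j hij
    obtain ⟨g1, g2, g3⟩ := hij
    by_cases hi : i = a ∨ i = b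
    · have hj : j ≠ a ∧ j ≠ b := by
        rcases hi with rfl | rfl
        · exact ⟨Ne.symm g1, fun h => g2 ⟨rfl, h⟩⟩
        · exact ⟨fun h => g3 ⟨rfl, h⟩, Ne.symm g1⟩
      rw [norm_sub_rev]
      exact hfar j i hj.1 hj.2 hi
    rw [not_or] at hi
    by_cases hj : j = a ∨ j = b
    · exact hfar i j hi.1 hi.2 hj
    rw [not_or] at hj
    -- both are far bodies
    have h1 := hq i hi.1 hi.2
    have h2 := hq j hj.1 hj.2
    have h3 : (1 : ℝ) ≤ |(i.val : ℝ) - j.val| := by
      have : (i.val : ℤ) - j.val ≠ 0 := by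
        intro h
        exact g1 (Fin.ext (by omega))
      have h4 := Int.one_le_abs this
      have h5 : ((1 : ℤ) : ℝ) ≤ ((|(i.val : ℤ) - j.val| : ℤ) : ℝ) := by exact_mod_cast h4
      push_cast at h5
      exact h5
    have h4 : ‖(R * (lam * (i.val : ℝ))) • e1 - (R * (lam * (j.val : ℝ))) • e1‖ =
        lam * R * |(i.val : ℝ) - j.val| := by
      rw [← sub_smul, norm_smul, he1, mul_one, Real.norm_eq_abs,
        show R * (lam * (i.val : ℝ)) - R * (lam * (j.val : ℝ)) =
          (lam * R) * ((i.val : ℝ) - j.val) by ring, abs_mul, abs_of_nonneg (by positivity)]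
    have h5 : (R * (lam * (i.val : ℝ))) • e1 - (R * (lam * (j.val : ℝ))) • e1 =
        -(q i - (R * (lam * (i.val : ℝ))) • e1) + (q j - (R * (lam * (j.val : ℝ))) • e1) +
          (q i - q j) := by abel
    have h6 : lam * R * |(i.val : ℝ) - j.val| ≤ lam / 4 * R + lam / 4 * R + ‖q i - q j‖ := by
      rw [← h4, h5]
      refine (norm_add_le _ _).trans ?_
      refine add_le_add ((norm_add_le _ _).trans ?_) le_rfl
      rw [norm_neg]
      exact add_le_add h1 h2
    have h7 : lam * R * 1 ≤ lam * R * |(i.val : ℝ) - j.val| := by gcongr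
    linarith

end Pool.Agent.L5helper86.NB
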