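import Pool.Agent.L5helper86.NB.Int

set_option autoImplicit false

/-! # Upper bounds for the Liouville measures, `N` bodies (helper86) -/

namespace Pool.Agent.L5helper86.NB

open MeasureTheory Set Metric Pool.Agent.Y516.NW Pool.Agent.L5helper85.NB

variable {n : ℕ}

/-- the part of the energy surface with all bodies within `R` of the centre of mass and kinetic
energy at most `κ` -/
def PartS (m : Fin (n + 1) → ℝ) (E R κ : ℝ) : Set (Cfg (n + 1) × Cfg (n + 1)) :=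
  {z | z ∈ Surf m E ∧ (∀ i, ‖z.1 i‖ ≤ R) ∧ kin m z.2 ≤ κ}

/-- elementary facts over a configuration with `K > 0`: closest pair and second distance -/
theorem factsN (hn : 2 ≤ n) (m : Fin (n + 1) → ℝ) (hm : ∀ i, 0 < m i) (E : ℝ) (hE : E < 0)
    (q : Cfg (n + 1)) (hq : ∀ i j, i ≠ j → q i ≠ q j) (hK : 0 < pot m q + E) :
    ∃ z : Idx n, 0 < ‖q z.1.1.1 - q z.1.1.2‖ ∧ ‖q z.1.1.1 - q z.1.1.2‖ ≤ (∑ i, m i) ^ 2 / |E| ∧
      pot m q + E ≤ (∑ i, m i) ^ 2 / ‖q z.1.1.1 - q z.1.1.2‖ ∧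
      0 < ‖q z.1.2.1 - q z.1.2.2‖ ∧
      ∀ k l, P2 z.1.1.1 z.1.1.2 k l → ‖q z.1.2.1 - q z.1.2.2‖ ≤ ‖q k - q l‖ := by
  have h01 : (⟨0, by omega⟩ : Fin (n + 1)) ≠ ⟨1, by omega⟩ := by
    intro h; simp at h
  obtain ⟨⟨a, b⟩, hab, hmin⟩ := Finset.exists_min_image
    (Finset.univ.filter (fun p : Fin (n + 1) × Fin (n + 1) => p.1 ≠ p.2))
    (fun p => ‖q p.1 - q p.2‖) ⟨(⟨0, by omega⟩, ⟨1, by omega⟩),
      Finset.mem_filter.2 ⟨Finset.mem_univ _, h01⟩⟩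
  have hab' : a ≠ b := (Finset.mem_filter.1 hab).2
  have hmin' : ∀ i j, i ≠ j → ‖q a - q b‖ ≤ ‖q i - q j‖ := fun i j h =>
    hmin (i, j) (Finset.mem_filter.2 ⟨Finset.mem_univ _, h⟩)
  have hr : 0 < ‖q a - q b‖ := norm_pos_iff.2 (sub_ne_zero.2 (hq _ _ hab'))
  -- a third body
  obtain ⟨c, hc⟩ : ∃ c : Fin (n + 1), c ∉ ({a, b} : Finset (Fin (n + 1))) := by
    by_contra hcon
    push Not at hcon
    have h1 : (Finset.univ : Finset (Fin (n + 1))) ⊆ {a, b} := fun k _ => hcon k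
    have h2 := Finset.card_le_card h1
    rw [Finset.card_univ, Fintype.card_fin, Finset.card_pair hab'] at h2
    omega
  simp only [Finset.mem_insert, Finset.mem_singleton, not_or] at hc
  obtain ⟨⟨i, j⟩, hij, hmin2⟩ := Finset.exists_min_image
    (Finset.univ.filter (fun p : Fin (n + 1) × Fin (n + 1) => P2 a b p.1 p.2))
    (fun p => ‖q p.1 - q p.2‖) ⟨(c, a),
      Finset.mem_filter.2 ⟨Finset.mem_univ _, hc.1, fun h => hc.1 h.1, fun h => hc.2 h.1⟩⟩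
  have hij' : P2 a b i j := (Finset.mem_filter.1 hij).2
  have hmin2' : ∀ k l, P2 a b k l → ‖q i - q j‖ ≤ ‖q k - q l‖ := fun k l h =>
    hmin2 (k, l) (Finset.mem_filter.2 ⟨Finset.mem_univ _, h⟩)
  have hd : 0 < ‖q i - q j‖ := norm_pos_iff.2 (sub_ne_zero.2 (hq _ _ hij'.1))
  have hpot := pot_le m hm q _ hr hmin'
  have hKr : pot m q + E ≤ (∑ i, m i) ^ 2 / ‖q a - q b‖ := by linarith
  have hle : ‖q a - q b‖ ≤ (∑ i, m i) ^ 2 / |E| := by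
    have hEp : 0 < |E| := abs_pos.2 hE.ne
    have hEe : |E| = -E := abs_of_neg hE
    rw [le_div_iff₀ hEp, hEe]
    have h3 : -E < (∑ i, m i) ^ 2 / ‖q a - q b‖ := by linarith
    rw [lt_div_iff₀ hr] at h3
    linarith
  by_cases hi : i ≠ a ∧ i ≠ b
  · exact ⟨⟨((a, b), (i, j)), hab', hi.1, hi.2, hij'.1⟩, hr, hle, hKr, hd, hmin2'⟩
  · have hj : j ≠ a ∧ j ≠ b := by
      rw [not_and_or, not_not, not_not] at hi
      obtain ⟨g1, g2, g3⟩ := hij'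
      rcases hi with rfl | rfl
      · exact ⟨Ne.symm g1, fun h => g2 ⟨rfl, h⟩⟩
      · exact ⟨fun h => g3 ⟨rfl, h⟩, Ne.symm g1⟩
    refine ⟨⟨((a, b), (j, i)), hab', hj.1, hj.2, Ne.symm hij'.1⟩, hr, hle, hKr, ?_, ?_⟩
    · rw [norm_sub_rev]; exact hd
    · intro k l h
      show ‖q j - q i‖ ≤ ‖q k - q l‖
      rw [norm_sub_rev]; exact hmin2' k l h

/-- data over a configuration which carries points of the part -/
theorem overx (m : Fin (n + 1) → ℝ) (E R κ : ℝ) (x : Fin n → E3) (p : Cfg (n + 1))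
    (hp : (cf m x, p) ∈ PartS m E R κ) : (∀ i j, i ≠ j → cf m x i ≠ cf m x j) ∧
      (∀ i, ‖cf m x i‖ ≤ R) ∧ pot m (cf m x) + E ≤ κ := by
  obtain ⟨⟨hx, _, _, hen⟩, hR, hk⟩ := hp
  refine ⟨hx, hR, ?_⟩
  have h1 : kin m p - pot m (cf m x) = E := hen
  have h2 : kin m p ≤ κ := hk
  linarith

theorem wt_one (m : Fin (n + 1) → ℝ) (W : E3 → ENNReal) (t R : ℝ) (z : Idx n) (x : Fin n → E3)
    (hR : ∀ i, ‖cf m x i‖ ≤ R) (h2 : 0 < ‖cf m x z.1.2.1 - cf m x z.1.2.2‖) :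
    wt m W t (2 * R) R z x = W (cf m x z.1.1.1 - cf m x z.1.1.2) *
      ENNReal.ofReal (‖cf m x z.1.2.1 - cf m x z.1.2.2‖ ^ (-t)) := by
  have hR0 : 0 ≤ R := (norm_nonneg _).trans (hR 0)
  unfold wt
  have e2 : pw t (2 * R) (TN m z.1.1.1 z.1.1.2 z.1.2.1 z.1.2.2 x).2.1 =
      ENNReal.ofReal (‖cf m x z.1.2.1 - cf m x z.1.2.2‖ ^ (-t)) := by
    rw [TN_apply]
    refine pw_eq (norm_pos_iff.1 h2) ?_
    refine (norm_sub_le _ _).trans ?_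
    have := hR z.1.2.1
    have := hR z.1.2.2
    linarith
  have e3 : (closedBall (0 : Rest n z.1.1.1 z.1.1.2 z.1.2.1 → E3) R).indicator 1
      (TN m z.1.1.1 z.1.1.2 z.1.2.1 z.1.2.2 x).2.2 = (1 : ENNReal) := by
    rw [TN_apply, indicator_of_mem]
    · rfl
    · rw [mem_closedBall, dist_zero_right, pi_norm_le_iff_of_nonneg hR0]
      exact fun k => hR k.1
  rw [e2, e3, mul_one, TN_apply]

/-- upper bound for the Liouville measure of the part -/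
theorem lv_part_le (hn : 2 ≤ n) (m : Fin (n + 1) → ℝ) (hm : ∀ i, 0 < m i) (e : ℝ) (he : 3 < e) :
    ∃ C : ℝ, 0 < C ∧ ∀ E κ R : ℝ, E < 0 → |E| ≤ κ → 0 < R →
    lv m E e (PartS m E R κ) ≤ ENNReal.ofReal (C * κ ^ (e - 3) * R ^ (3 * (n - 1))) := by
  have hMs : 0 < ∑ i, m i := Finset.sum_pos (fun i _ => hm i) ⟨0, Finset.mem_univ _⟩
  have hV : 0 < (V0 m).toReal := ENNReal.toReal_pos (V0_pos m hm).ne' (V0_lt m hm).ne
  obtain ⟨i₀, -, hi₀⟩ := Finset.exists_min_image (Finset.univ : Finset (Fin (n + 1))) m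
    ⟨0, Finset.mem_univ _⟩
  obtain ⟨μ, hμ⟩ : ∃ μ, μ = m i₀ := ⟨_, rfl⟩
  have hμ0 : 0 < μ := by rw [hμ]; exact hm _
  have hμi : ∀ i, μ ≤ m i := fun i => by rw [hμ]; exact hi₀ i (Finset.mem_univ _)
  have hco : 0 < co e := by
    unfold co
    have h1 : 0 < volume.real (ball (0 : E3) 1) :=
      ENNReal.toReal_pos (measure_ball_pos volume _ one_pos).ne' measure_ball_lt_top.ne
    have h2 : 0 < e - 3 := by linarith
    positivity
  obtain ⟨A, hA, h⟩ := upperN m hm 0 (by norm_num)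
  refine ⟨A * (((∑ i, m i) ^ 2) ^ e * (V0 m).toReal) * (co e * (μ ^ 2 / 2) ^ (3 - e)) * 8,
    by positivity, ?_⟩
  intro E κ R hE hEκ hR
  have hEp : 0 < |E| := abs_pos.2 hE.ne
  have hEe : |E| = -E := abs_of_neg hE
  have hκ : 0 < κ := hEp.trans_le hEκ
  have h1 := h (out e (μ ^ 2 / (2 * κ))) (out_meas _ _) (((∑ i, m i) ^ 2) ^ e * (V0 m).toReal)
    (co e * (μ ^ 2 / (2 * κ)) ^ (3 - e)) (2 * R) R (by positivity)
    (by positivity) (by positivity) hR (le_of_eq (lint_out he (by positivity)))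
    (dens m E e (PartS m E R κ)) ?_
  · refine h1.trans (ENNReal.ofReal_le_ofReal (le_of_eq ?_))
    have e1 : (μ ^ 2 / (2 * κ)) ^ (3 - e) = (μ ^ 2 / 2) ^ (3 - e) * κ ^ (e - 3) := by
      rw [show μ ^ 2 / (2 * κ) = μ ^ 2 / 2 * κ⁻¹ by field_simp, Real.mul_rpow (by positivity)
        (by positivity), Real.inv_rpow hκ.le, ← Real.rpow_neg hκ.le]
      congr 2
      ring
    have e2 : (2 * R) ^ (3 - 0 : ℝ) = (2 * R) ^ 3 := by
      rw [sub_zero]; exact_mod_cast Real.rpow_natCast _ 3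
    have e3 : R ^ (3 * (n - 1)) = R ^ 3 * R ^ (3 * (n - 2)) := by
      rw [← pow_add]; congr 1; omega
    rw [e1, e2, e3]
    ring
  · intro x
    by_cases hz : ¬ (0 < pot m (cf m x) + E) ∨ ∀ p, (cf m x, p) ∉ PartS m E R κ
    · exact Or.inl (dens_zero m E e _ x hz)
    right
    rw [not_or, not_not, not_forall] at hz
    obtain ⟨hK, p, hp⟩ := hz
    rw [not_not] at hp
    obtain ⟨hx, hRx, hKκ⟩ := overx m E R κ x p hp
    obtain ⟨z, hr, hrle, hKr, hd, hmin⟩ := factsN hn m hm E hE (cf m x) hx hK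
    refine ⟨z, (dens_le m E e _ x).trans ?_⟩
    have hlow : μ ^ 2 / (2 * κ) ≤ ‖cf m x z.1.1.1 - cf m x z.1.1.2‖ := by
      have g1 := le_pot m hm (cf m x) z.1.1.1 z.1.1.2 z.2.1
      have g2 : m z.1.1.1 * m z.1.1.2 / ‖cf m x z.1.1.1 - cf m x z.1.1.2‖ ≤ 2 * κ := by linarith
      rw [div_le_iff₀ hr] at g2
      rw [div_le_iff₀ (by positivity)]
      have g3 : μ ^ 2 ≤ m z.1.1.1 * m z.1.1.2 := by
        rw [sq]
        exact mul_le_mul (hμi _) (hμi _) hμ0.le (hm _).le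
      linarith
    have hout : out e (μ ^ 2 / (2 * κ)) (cf m x z.1.1.1 - cf m x z.1.1.2) =
        ENNReal.ofReal (‖cf m x z.1.1.1 - cf m x z.1.1.2‖ ^ (-e)) := by
      unfold out
      have g4 : cf m x z.1.1.1 - cf m x z.1.1.2 ∈ {y : E3 | μ ^ 2 / (2 * κ) ≤ ‖y‖} := hlow
      rw [indicator_of_mem g4]
    rw [wt_one m _ 0 R z x hRx hd, hout, neg_zero, Real.rpow_zero, ENNReal.ofReal_one, mul_one,
      ENNReal.ofReal_mul (by positivity), ENNReal.ofReal_toReal (V0_lt m hm).ne, mul_right_comm,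
      ← ENNReal.ofReal_mul (by positivity)]
    gcongr
    calc (pot m (cf m x) + E) ^ e
        ≤ ((∑ i, m i) ^ 2 / ‖cf m x z.1.1.1 - cf m x z.1.1.2‖) ^ e :=
          Real.rpow_le_rpow hK.le hKr (by linarith)
      _ = _ := by
          rw [Real.div_rpow (by positivity) hr.le, Real.rpow_neg hr.le, div_eq_mul_inv]

/-- upper bound for the Liouville measure of the nonwandering points of the part -/
theorem lv_nonw_le (hn : 2 ≤ n) (m : Fin (n + 1) → ℝ) (hm : ∀ i, 0 < m i) (e : ℝ)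
    (he : 7 / 2 ≤ e) : ∃ C : ℝ, 0 < C ∧ ∀ E κ R : ℝ, E < 0 → |E| ≤ κ → 0 < R →
    ∀ (ψ : Cfg (n + 1) × Cfg (n + 1) → ℝ)
      (φ : ℝ → Cfg (n + 1) × Cfg (n + 1) → Cfg (n + 1) × Cfg (n + 1)), IsFl m E ψ φ →
    lv m E e {z | z ∈ PartS m E R κ ∧ NonW (Surf m E) φ z} ≤
      ENNReal.ofReal (C * κ ^ (e - 7 / 2) * |E|⁻¹ * R ^ (-(3 / 2) : ℝ) * R ^ (3 * (n - 1))) := by
  have hMs : 0 < ∑ i, m i := Finset.sum_pos (fun i _ => hm i) ⟨0, Finset.mem_univ _⟩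
  have hV : 0 < (V0 m).toReal := ENNReal.toReal_pos (V0_pos m hm).ne' (V0_lt m hm).ne
  have hcs2 := cs_pos (s := 2) (by norm_num)
  obtain ⟨A, hA, h⟩ := upperN m hm (3 / 2) (by norm_num)
  obtain ⟨C0, hC0, hden⟩ := dens_nonw hn m hm
  refine ⟨A * (C0 * ((∑ i, m i) ^ 2) ^ 2 * (V0 m).toReal) * (cs 2 * (∑ i, m i) ^ 2) *
    2 ^ (3 / 2 : ℝ), by positivity, ?_⟩
  intro E κ R hE hEκ hR ψ φ hφ
  have hEp : 0 < |E| := abs_pos.2 hE.ne
  have hκ : 0 < κ := hEp.trans_le hEκ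
  have h1 := h (pw 2 ((∑ i, m i) ^ 2 / |E|)) (pw_meas _ _)
    (C0 * κ ^ (e - 7 / 2) * ((∑ i, m i) ^ 2) ^ 2 * (V0 m).toReal)
    (cs 2 * ((∑ i, m i) ^ 2 / |E|) ^ (3 - 2 : ℝ)) (2 * R) R
    (by positivity) (by positivity) (by positivity) hR
    (le_of_eq (lint_pw (by norm_num) (by positivity)))
    (dens m E e {z | z ∈ PartS m E R κ ∧ NonW (Surf m E) φ z}) ?_
  · refine h1.trans (ENNReal.ofReal_le_ofReal (le_of_eq ?_))
    have e1 : ((∑ i, m i) ^ 2 / |E|) ^ (3 - 2 : ℝ) = (∑ i, m i) ^ 2 * |E|⁻¹ := by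
      norm_num
      rfl
    have e2 : (2 * R) ^ (3 - 3 / 2 : ℝ) = 2 ^ (3 / 2 : ℝ) * R ^ (3 / 2 : ℝ) := by
      rw [show (3 - 3 / 2 : ℝ) = 3 / 2 by norm_num, Real.mul_rpow (by norm_num) hR.le]
    have e3 : R ^ (3 * (n - 1)) = R ^ 3 * R ^ (3 * (n - 2)) := by
      rw [← pow_add]; congr 1; omega
    have e4 : R ^ (-(3 / 2) : ℝ) * R ^ 3 = R ^ (3 / 2 : ℝ) := by
      rw [← Real.rpow_natCast, ← Real.rpow_add hR]; norm_num
    rw [e1, e2, e3, ← e4]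
    ring
  · intro x
    by_cases hz : ¬ (0 < pot m (cf m x) + E) ∨
        ∀ p, (cf m x, p) ∉ {z | z ∈ PartS m E R κ ∧ NonW (Surf m E) φ z}
    · exact Or.inl (dens_zero m E e _ x hz)
    right
    rw [not_or, not_not, not_forall] at hz
    obtain ⟨hK, p, hp⟩ := hz
    rw [not_not] at hp
    obtain ⟨hx, hRx, hKκ⟩ := overx m E R κ x p hp.1
    obtain ⟨z, hr, hrle, hKr, hd, hmin⟩ := factsN hn m hm E hE (cf m x) hx hK
    refine ⟨z, (hden E e hE.le ψ φ hφ x hx z.1.1.1 z.1.1.2 z.2.1 _ hd hmin hK _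
      (fun y hy => hy.2)).trans ?_⟩
    rw [wt_one m _ (3 / 2) R z x hRx hd, pw_eq (norm_pos_iff.1 hr) hrle,
      ← ENNReal.ofReal_mul (by positivity), ← ENNReal.ofReal_mul (by positivity)]
    nth_rewrite 1 [← ENNReal.ofReal_toReal (V0_lt m hm).ne]
    rw [← ENNReal.ofReal_mul (by positivity)]
    refine ENNReal.ofReal_le_ofReal ?_
    obtain ⟨r, hrd⟩ : ∃ r, r = ‖cf m x z.1.1.1 - cf m x z.1.1.2‖ := ⟨_, rfl⟩
    obtain ⟨K, hKd⟩ : ∃ K, K = pot m (cf m x) + E := ⟨_, rfl⟩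
    obtain ⟨d, hdd⟩ : ∃ d, d = ‖cf m x z.1.2.1 - cf m x z.1.2.2‖ := ⟨_, rfl⟩
    rw [← hrd] at hr hKr
    rw [← hKd] at hK hKκ hKr
    rw [← hdd] at hd
    rw [← hrd, ← hKd, ← hdd]
    have e5 : K ^ (e - 3 / 2) ≤ κ ^ (e - 7 / 2) * (((∑ i, m i) ^ 2) ^ 2 * r ^ (-2 : ℝ)) := by
      have g1 : K ^ (e - 3 / 2) = K ^ (e - 7 / 2) * K ^ 2 := by
        rw [← Real.rpow_natCast, ← Real.rpow_add hK]
        congr 1
        push_cast
        ring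
      have g2 : K ^ 2 ≤ ((∑ i, m i) ^ 2 / r) ^ 2 := by gcongr
      have g3 : ((∑ i, m i) ^ 2 / r) ^ 2 = ((∑ i, m i) ^ 2) ^ 2 * r ^ (-2 : ℝ) := by
        rw [Real.rpow_neg hr.le, Real.rpow_two, div_pow, div_eq_mul_inv]
      rw [g1, ← g3]
      have g4 : K ^ (e - 7 / 2) ≤ κ ^ (e - 7 / 2) := Real.rpow_le_rpow hK.le hKκ (by linarith)
      gcongr
    calc C0 * K ^ (e - 3 / 2) * d ^ (-(3 / 2) : ℝ) * (V0 m).toReal
        ≤ C0 * (κ ^ (e - 7 / 2) * (((∑ i, m i) ^ 2) ^ 2 * r ^ (-2 : ℝ))) *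
          d ^ (-(3 / 2) : ℝ) * (V0 m).toReal := by gcongr
      _ = _ := by ring

end Pool.Agent.L5helper86.NB
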